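import Pool.Agent.PCL.Stmts

/-!
Squad PCL (MP_1fc801_co), row BGP (helper34): large common prime divisors.
-/

set_option autoImplicit false

namespace Pool.Agent.PCL.H34

/-- the number of prime divisors -/
lemma card_primes (Δ : ℤ) (h : Δ ≠ 0) :
    ((Δ.natAbs.primeFactors.card : ℕ) : ℝ) ≤ Real.logb 2 |(Δ : ℝ)| := by
  have h0 : Δ.natAbs ≠ 0 := Int.natAbs_ne_zero.mpr h
  have h1 : 2 ^ Δ.natAbs.primeFactors.card ≤ Δ.natAbs := by
    calc 2 ^ Δ.natAbs.primeFactors.card ≤ ∏ p ∈ Δ.natAbs.primeFactors, p := by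
          refine Finset.pow_card_le_prod _ _ _ fun p hp => ?_
          exact (Nat.prime_of_mem_primeFactors hp).two_le
      _ ≤ Δ.natAbs := Nat.le_of_dvd (Nat.pos_of_ne_zero h0) (Nat.prod_primeFactors_dvd _)
  have h2 : ((Δ.natAbs : ℕ) : ℝ) = |(Δ : ℝ)| := by
    rw [← Int.cast_abs, Int.abs_eq_natAbs]
    simp
  have h3 : (2 : ℝ) ^ Δ.natAbs.primeFactors.card ≤ |(Δ : ℝ)| := by
    rw [← h2]
    exact_mod_cast h1
  have h4 : (0 : ℝ) < |(Δ : ℝ)| := abs_pos.mpr (by exact_mod_cast h)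
  rw [Real.le_logb_iff_rpow_le (by norm_num) h4, Real.rpow_natCast]
  exact h3

theorem bgp (h1 : VdmStmt) (h2 : CrcStmt) : BgpStmt := by
  classical
  intro m σ f R y Δ A hf hA hΔ hy hex
  set Q : Finset ℕ := Δ.natAbs.primeFactors.filter fun p => y < p with hQ
  set Ap : ℕ → Finset ℤ := fun p => A.filter fun a => ∀ s, (p : ℤ) ∣ (f s).eval a with hAp
  have hcov : A ⊆ Q.biUnion Ap := by
    intro a ha
    obtain ⟨p, hp, hyp, hpd, hps⟩ := hex a ha
    rw [Finset.mem_biUnion]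
    refine ⟨p, ?_, ?_⟩
    · rw [hQ, Finset.mem_filter, Nat.mem_primeFactors]
      refine ⟨⟨hp, ?_, Int.natAbs_ne_zero.mpr hΔ⟩, hyp⟩
      exact Int.natCast_dvd.mp hpd
    · rw [hAp, Finset.mem_filter]
      exact ⟨ha, hps⟩
  have hy0 : (0 : ℝ) < y := by exact_mod_cast hy
  have hone : ∀ p ∈ Q, ((Ap p).card : ℝ) ≤ (m : ℝ) * ((2 * (R : ℝ) + 1) / y + 1) := by
    intro p hp
    rw [hQ, Finset.mem_filter, Nat.mem_primeFactors] at hp
    have hpp : p.Prime := hp.1.1
    have hyp : (y : ℝ) ≤ p := by exact_mod_cast hp.2.le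
    have h3 := h2 m R {p} (Ap p)
      (by
        intro q hq
        rw [Finset.mem_singleton] at hq
        rw [hq]; exact hpp.pos)
      (by
        intro q hq q' hq' hne
        rw [Finset.mem_singleton] at hq hq'
        exact absurd (hq.trans hq'.symm) hne)
      (by
        intro a ha
        rw [hAp, Finset.mem_filter] at ha
        exact hA a ha.1)
      (by
        intro q hq B hB hinc
        rw [Finset.mem_singleton] at hq
        subst hq
        refine h1 m σ f q 1 1 hpp le_rfl (by simp) hf.deg (hf.prm q hpp) B ?_ ?_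
        · intro a ha s
          have h4 := hB ha
          rw [hAp, Finset.mem_filter] at h4
          rw [pow_one]
          exact h4.2 s
        · intro a ha b hb hab
          rw [pow_one] at hab
          exact hinc a ha b hb hab)
    rw [Finset.card_singleton, pow_one, Finset.prod_singleton] at h3
    refine h3.trans ?_
    have h5 : (2 * (R : ℝ) + 1) / p ≤ (2 * (R : ℝ) + 1) / y :=
      div_le_div_of_nonneg_left (by positivity) hy0 hyp
    exact mul_le_mul_of_nonneg_left (by linarith) (Nat.cast_nonneg m)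
  have h6 : (A.card : ℝ) ≤ ∑ p ∈ Q, ((Ap p).card : ℝ) := by
    have h7 := (Finset.card_le_card hcov).trans Finset.card_biUnion_le
    exact_mod_cast h7
  have h8 : ∑ p ∈ Q, ((Ap p).card : ℝ) ≤ Q.card * ((m : ℝ) * ((2 * (R : ℝ) + 1) / y + 1)) := by
    refine (Finset.sum_le_sum hone).trans ?_
    rw [Finset.sum_const, nsmul_eq_mul]
  have h9 : (Q.card : ℝ) ≤ Real.logb 2 |(Δ : ℝ)| := by
    refine le_trans ?_ (card_primes Δ hΔ)
    exact_mod_cast Finset.card_le_card (Finset.filter_subset _ _)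
  have h10 : (0 : ℝ) ≤ (m : ℝ) * ((2 * (R : ℝ) + 1) / y + 1) := by positivity
  calc (A.card : ℝ) ≤ Q.card * ((m : ℝ) * ((2 * (R : ℝ) + 1) / y + 1)) := h6.trans h8
    _ ≤ Real.logb 2 |(Δ : ℝ)| * ((m : ℝ) * ((2 * (R : ℝ) + 1) / y + 1)) :=
        mul_le_mul_of_nonneg_right h9 h10
    _ = (m : ℝ) * Real.logb 2 |(Δ : ℝ)| * ((2 * (R : ℝ) + 1) / y + 1) := by ring

end Pool.Agent.PCL.H34
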