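import Pool.Agent.PCL.Stmts

/-!
Squad PCL (MP_1fc801_co), row IDX (helper34): a lattice with many points in the box has small
minors.
-/

set_option autoImplicit false

namespace Pool.Agent.PCL.H34

open Module

/-- the coordinates `s` -/
def proj {ι : Type} {m : ℕ} (s : Fin m → ι) : (ι → ℤ) →ₗ[ℤ] (Fin m → ℤ) where
  toFun x := fun i => x (s i)
  map_add' x y := rfl
  map_smul' c x := rfl

lemma proj_apply {ι : Type} {m : ℕ} (s : Fin m → ι) (x : ι → ℤ) (i : Fin m) :
    proj s x i = x (s i) := rfl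

/-- a combination of columns which vanishes -/
lemma comb_zero {m : ℕ} {A : Matrix (Fin m) (Fin m) ℤ} (hA : A.det ≠ 0) {c : Fin m → ℤ}
    (h : A.mulVec c = 0) : c = 0 := by
  by_contra hc
  exact hA (Matrix.exists_mulVec_eq_zero_iff.mp ⟨c, hc, h⟩)

/-- the columns -/
def col {ι : Type} {m : ℕ} (b : Fin m → ι → ℤ) (s : Fin m → ι) (j : Fin m) : Fin m → ℤ :=
  fun i => b j (s i)

lemma mulVec_eq {ι : Type} {m : ℕ} (b : Fin m → ι → ℤ) (s : Fin m → ι) (c : Fin m → ℤ) :
    (Matrix.of fun i j => b j (s i)).mulVec c = ∑ j, c j • col b s j := by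
  funext i
  simp only [Matrix.mulVec, dotProduct, Matrix.of_apply, Finset.sum_apply, Pi.smul_apply,
    smul_eq_mul, col]
  exact Finset.sum_congr rfl fun j _ => mul_comm _ _

lemma col_indep {ι : Type} {m : ℕ} {b : Fin m → ι → ℤ} {s : Fin m → ι} (h : mn b s ≠ 0) :
    LinearIndependent ℤ (col b s) := by
  rw [Fintype.linearIndependent_iff]
  intro c hc
  have h2 := comb_zero (A := Matrix.of fun i j => b j (s i)) h (c := c) (by rw [mulVec_eq]; exact hc)
  intro i
  rw [h2]; rfl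

/-- the number of classes -/
lemma card_quot {ι : Type} {m : ℕ} {b : Fin m → ι → ℤ} {s : Fin m → ι} (h : mn b s ≠ 0) :
    Nat.card ((Fin m → ℤ) ⧸ Submodule.span ℤ (Set.range (col b s))) = (mn b s).natAbs := by
  have hli := col_indep h
  have h1 := Submodule.natAbs_det_basis_change (Pi.basisFun ℤ (Fin m))
    (Submodule.span ℤ (Set.range (col b s))) (Basis.span hli)
  rw [← h1]
  congr 1
  have h2 : ((↑) ∘ (Basis.span hli) : Fin m → Fin m → ℤ) = col b s := by
    funext j
    simp [Basis.span_apply]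
  rw [h2, Basis.det_apply]
  unfold mn
  congr 1

/-- representatives in a box -/
lemma rep_box {m : ℕ} (γ : Fin m → Fin m → ℤ) (hγ : LinearIndependent ℤ γ) (K : Fin m → ℝ)
    (hK : ∀ j i, |(γ j i : ℝ)| ≤ K i) (x : Fin m → ℤ) :
    ∃ n : Fin m → ℤ, ∀ i, |((x i - ∑ j, n j * γ j i : ℤ) : ℝ)| ≤ m * K i := by
  classical
  set G : Matrix (Fin m) (Fin m) ℤ := Matrix.of fun i j => γ j i with hG
  have hdet : G.det ≠ 0 := by
    intro h0
    obtain ⟨v, hv, hv0⟩ := Matrix.exists_mulVec_eq_zero_iff.mpr h0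
    apply hv
    rw [Fintype.linearIndependent_iff] at hγ
    funext j
    refine hγ v ?_ j
    funext i
    have h1 := congrFun hv0 i
    simp only [Matrix.mulVec, dotProduct, hG, Matrix.of_apply, Pi.zero_apply] at h1
    simp only [Finset.sum_apply, Pi.smul_apply, smul_eq_mul, Pi.zero_apply]
    rw [← h1]
    exact Finset.sum_congr rfl fun j _ => mul_comm _ _
  set GR : Matrix (Fin m) (Fin m) ℝ := G.map (Int.castRingHom ℝ) with hGR
  have hdR : IsUnit GR.det := by
    rw [isUnit_iff_ne_zero, hGR, ← RingHom.mapMatrix_apply, ← RingHom.map_det]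
    simpa using hdet
  set t : Fin m → ℝ := GR⁻¹.mulVec (fun i => (x i : ℝ)) with ht
  have hx : ∀ i, (x i : ℝ) = ∑ j, t j * (γ j i : ℝ) := by
    intro i
    have h1 : GR.mulVec t = fun i => (x i : ℝ) := by
      rw [ht, Matrix.mulVec_mulVec, Matrix.mul_nonsing_inv _ hdR, Matrix.one_mulVec]
    have h2 := congrFun h1 i
    simp only [Matrix.mulVec, dotProduct, hGR, hG, Matrix.map_apply, Matrix.of_apply,
      eq_intCast] at h2
    rw [← h2]
    exact Finset.sum_congr rfl fun j _ => mul_comm _ _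
  refine ⟨fun j => ⌊t j⌋, fun i => ?_⟩
  push_cast
  rw [hx i, ← Finset.sum_sub_distrib]
  refine (Finset.abs_sum_le_sum_abs _ _).trans ?_
  have h3 : ∀ j ∈ (Finset.univ : Finset (Fin m)),
      |t j * (γ j i : ℝ) - (⌊t j⌋ : ℝ) * (γ j i : ℝ)| ≤ K i := by
    intro j _
    rw [← sub_mul, abs_mul]
    have h4 : |t j - (⌊t j⌋ : ℝ)| ≤ 1 := by
      rw [abs_of_nonneg (sub_nonneg.mpr (Int.floor_le _))]
      have := Int.lt_floor_add_one (t j)
      linarith
    calc |t j - (⌊t j⌋ : ℝ)| * |(γ j i : ℝ)| ≤ 1 * |(γ j i : ℝ)| :=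
          mul_le_mul_of_nonneg_right h4 (abs_nonneg _)
      _ ≤ K i := by rw [one_mul]; exact hK j i
  refine (Finset.sum_le_sum h3).trans ?_
  rw [Finset.sum_const, Finset.card_univ, Fintype.card_fin, nsmul_eq_mul]

lemma card_bx {m : ℕ} (N : Fin m → ℕ) (r : ℝ) (h : ∀ i, 1 ≤ r * N i) :
    ((bx N r).card : ℝ) ≤ ∏ i, (3 * (r * N i)) := by
  unfold bx
  rw [Fintype.card_piFinset]
  push_cast
  refine Finset.prod_le_prod (fun i _ => Nat.cast_nonneg _) fun i _ => ?_
  rw [Int.card_Icc]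
  have h0 : (0 : ℤ) ≤ ⌊r * N i⌋ := Int.floor_nonneg.mpr (by linarith [h i])
  have h1 : (⌊r * N i⌋ + 1 - -⌊r * N i⌋).toNat = 2 * ⌊r * (N i : ℝ)⌋ + 1 := by
    omega
  have h2 : (((⌊r * N i⌋ + 1 - -⌊r * N i⌋).toNat : ℕ) : ℝ) = 2 * (⌊r * (N i : ℝ)⌋ : ℝ) + 1 := by
    have := congrArg (fun z : ℤ => (z : ℝ)) h1
    push_cast at this
    exact this
  rw [h2]
  have h3 := Int.floor_le (r * (N i : ℝ))
  have h4 := h i
  linarith

theorem idx : IdxStmt := by
  intro ι _ _ N m L b s r hN hr hu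
  classical
  obtain ⟨u, hui, huL⟩ := hu
  set B : Fin m → ι → ℤ := fun k => (b k : ι → ℤ) with hB
  have hrhs : 0 ≤ (3 * ((m : ℝ) + 1) * r) ^ m * ∏ i, (N (s i) : ℝ) := by positivity
  by_cases hd : mn B s = 0
  · rw [hd]
    simpa using hrhs
  -- injectivity on the lattice
  have hrepr : ∀ x ∈ L, ∃ c : Fin m → ℤ, x = ∑ j, c j • B j := by
    intro x hx
    refine ⟨fun j => b.repr ⟨x, hx⟩ j, ?_⟩
    have h1 := b.sum_repr ⟨x, hx⟩
    have h2 := congrArg (fun z : L => (z : ι → ℤ)) h1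
    simp only [AddSubmonoidClass.coe_finsetSum, SetLike.val_smul] at h2
    exact h2.symm
  have hprojB : ∀ c : Fin m → ℤ, proj s (∑ j, c j • B j) = ∑ j, c j • col B s j := by
    intro c
    rw [map_sum]
    refine Finset.sum_congr rfl fun j _ => ?_
    rw [map_smul]
    rfl
  have hinj : ∀ x ∈ L, proj s x = 0 → x = 0 := by
    intro x hx h0
    obtain ⟨c, rfl⟩ := hrepr x hx
    rw [hprojB, ← mulVec_eq] at h0
    have h1 := comb_zero hd h0
    rw [h1]
    simp
  set Nn : Submodule ℤ (Fin m → ℤ) := Submodule.span ℤ (Set.range (col B s)) with hNn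
  have hcolN : ∀ x ∈ L, proj s x ∈ Nn := by
    intro x hx
    obtain ⟨c, rfl⟩ := hrepr x hx
    rw [hprojB]
    exact Submodule.sum_mem _ fun j _ => Submodule.smul_mem _ _ (Submodule.subset_span ⟨j, rfl⟩)
  -- the short independent vectors
  have hγ : LinearIndependent ℤ fun j => proj s (u j) := by
    rw [Fintype.linearIndependent_iff] at hui ⊢
    intro c hc
    refine hui c ?_
    refine hinj _ (Submodule.sum_mem _ fun j _ => Submodule.smul_mem _ _ (huL j).1) ?_
    rw [map_sum, ← hc]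
    exact Finset.sum_congr rfl fun j _ => map_smul _ _ _
  have hrep : ∀ q : (Fin m → ℤ) ⧸ Nn, ∃ x : Fin m → ℤ, Submodule.Quotient.mk x = q ∧
      ∀ i, |(x i : ℝ)| ≤ m * (r * N (s i)) := by
    intro q
    obtain ⟨x, rfl⟩ := Submodule.Quotient.mk_surjective Nn q
    obtain ⟨n, hn⟩ := rep_box (fun j => proj s (u j)) hγ (fun i => r * N (s i))
      (fun j i => (huL j).2 (s i)) x
    refine ⟨x - ∑ j, n j • proj s (u j), ?_, ?_⟩
    · rw [Submodule.Quotient.eq]
      have h1 : x - ∑ j, n j • proj s (u j) - x = -∑ j, n j • proj s (u j) := by abel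
      rw [h1]
      exact Submodule.neg_mem _ (Submodule.sum_mem _ fun j _ =>
        Submodule.smul_mem _ _ (hcolN _ (huL j).1))
    · intro i
      have h1 := hn i
      have h2 : (x - ∑ j, n j • proj s (u j)) i = x i - ∑ j, n j * proj s (u j) i := by
        simp only [Pi.sub_apply, Finset.sum_apply, Pi.smul_apply, smul_eq_mul]
      rw [h2]
      exact h1
  choose rep hrep1 hrep2 using hrep
  have hcard := card_quot hd
  have hfin : Finite ((Fin m → ℤ) ⧸ Nn) := by
    apply Nat.finite_of_card_ne_zero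
    rw [hcard]
    exact Int.natAbs_ne_zero.mpr hd
  have hft : Fintype ((Fin m → ℤ) ⧸ Nn) := Fintype.ofFinite _
  have hcard2 : Fintype.card ((Fin m → ℤ) ⧸ Nn) = (mn B s).natAbs := by
    rw [← hcard, Nat.card_eq_fintype_card]
  -- the injection
  set S : Finset (ι → ℤ) := (bx N r).filter fun x => x ∈ L with hS
  set T : Finset (Fin m → ℤ) := bx (fun i => N (s i)) (((m : ℝ) + 1) * r) with hT
  have hle : ((Finset.univ : Finset ((Fin m → ℤ) ⧸ Nn)) ×ˢ S).card ≤ T.card := by
    refine Finset.card_le_card_of_injOn (fun p => rep p.1 + proj s p.2) ?_ ?_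
    · rintro ⟨q, x⟩ hp
      rw [Finset.mem_coe, Finset.mem_product, hS, Finset.mem_filter, mem_bx] at hp
      rw [Finset.mem_coe, hT, mem_bx]
      intro i
      have h1 := hrep2 q i
      have h2 := hp.2.1 (s i)
      simp only [Pi.add_apply, proj_apply]
      push_cast
      refine (abs_add_le _ _).trans ?_
      have h3 : ((m : ℝ) + 1) * r * (N (s i) : ℝ) = m * (r * N (s i)) + r * N (s i) := by ring
      rw [h3]
      exact add_le_add h1 h2
    · rintro ⟨q, x⟩ hp ⟨q', x'⟩ hp' h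
      rw [Finset.mem_coe, Finset.mem_product, hS, Finset.mem_filter] at hp hp'
      have h0 : rep q + proj s x = rep q' + proj s x' := h
      have hq : q = q' := by
        rw [← hrep1 q, ← hrep1 q', Submodule.Quotient.eq]
        have h1 : rep q - rep q' = proj s x' - proj s x := by
          rw [sub_eq_sub_iff_add_eq_add, h0, add_comm]
        rw [h1]
        exact Submodule.sub_mem _ (hcolN _ hp'.2.2) (hcolN _ hp.2.2)
      subst hq
      have h2 : proj s x = proj s x' := add_left_cancel h0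
      have h3 : x - x' = 0 := hinj _ (Submodule.sub_mem _ hp.2.2 hp'.2.2) (by
        rw [map_sub, h2, sub_self])
      rw [sub_eq_zero.mp h3]
  rw [Finset.card_product, Finset.card_univ, hcard2] at hle
  have hcb := card_bx (fun i => N (s i)) (((m : ℝ) + 1) * r) (by
    intro i
    have h1 : (1 : ℝ) ≤ N (s i) := by exact_mod_cast hN (s i)
    have h2 : (1 : ℝ) ≤ (m : ℝ) + 1 := by
      have := Nat.cast_nonneg (α := ℝ) m
      linarith
    have h3 : (1 : ℝ) ≤ ((m : ℝ) + 1) * r := one_le_mul_of_one_le_of_one_le h2 hr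
    exact one_le_mul_of_one_le_of_one_le h3 h1)
  have hS2 : S.card = cnt L N r := rfl
  have habs : |((mn B s : ℤ) : ℝ)| = (((mn B s).natAbs : ℕ) : ℝ) := by
    rw [← Int.cast_abs, Int.abs_eq_natAbs]
    simp
  rw [habs]
  calc (((mn B s).natAbs : ℕ) : ℝ) * (cnt L N r : ℝ)
      = (((mn B s).natAbs * S.card : ℕ) : ℝ) := by rw [hS2]; push_cast; ring
    _ ≤ (T.card : ℝ) := by exact_mod_cast hle
    _ ≤ ∏ i : Fin m, (3 * ((((m : ℝ) + 1) * r) * (N (s i) : ℝ))) := hcb
    _ = (3 * ((m : ℝ) + 1) * r) ^ m * ∏ i, (N (s i) : ℝ) := by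
        rw [show (fun i : Fin m => 3 * ((((m : ℝ) + 1) * r) * (N (s i) : ℝ))) =
          fun i => (3 * ((m : ℝ) + 1) * r) * (N (s i) : ℝ) from by funext i; ring,
          Finset.prod_mul_distrib, Finset.prod_const, Finset.card_univ, Fintype.card_fin]

end Pool.Agent.PCL.H34
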